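import Pool.Agent.helper70.RK.Spec

/-!
# Project rk (MP_e82547_al), row TRN (helper29)
-/

set_option autoImplicit false

namespace RK

open QS (Lef EAb)
open LEQ (Stb Nz XS Ls Mb FS mem_FS)

theorem TRN_V {C : Type} [Group C] (p : ℕ) (Q : Subgroup C) (z : C)
    (hz : ∀ x ∈ Q, x * z = z * x) (hzp : z ^ p = 1) (E : Subgroup C) (hE : E ≤ Q)
    (hEA : EAb p E) : ∃ V : Subgroup C, EAb p V ∧ E ≤ V ∧ z ∈ V := by
  have hc : ∀ e ∈ E, ∀ k : ℤ, Commute e (z ^ k) := fun e he k =>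
    Commute.zpow_right (hz e (hE he)) k
  have hk : ∀ k : ℤ, (z ^ k) ^ p = 1 := by
    intro k
    rw [← zpow_natCast, ← zpow_mul, mul_comm, zpow_mul, zpow_natCast, hzp, one_zpow]
  refine ⟨{ carrier := {x | ∃ e ∈ E, ∃ k : ℤ, x = e * z ^ k}
            mul_mem' := ?_
            one_mem' := ?_
            inv_mem' := ?_ }, ⟨?_, ?_⟩, ?_, ?_⟩
  · rintro x y ⟨e, he, k, rfl⟩ ⟨f, hf, l, rfl⟩
    refine ⟨e * f, E.mul_mem he hf, k + l, ?_⟩
    rw [Commute.mul_mul_mul_comm (hc f hf k).symm, zpow_add]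
  · exact ⟨1, E.one_mem, 0, by simp⟩
  · rintro x ⟨e, he, k, rfl⟩
    refine ⟨e⁻¹, E.inv_mem he, -k, ?_⟩
    rw [mul_inv_rev, zpow_neg]
    exact ((hc e he k).inv_inv).eq.symm
  · rintro x ⟨e, he, k, rfl⟩ y ⟨f, hf, l, rfl⟩
    rw [Commute.mul_mul_mul_comm (hc f hf k).symm, Commute.mul_mul_mul_comm (hc e he l).symm,
      hEA.1 e he f hf, ← zpow_add, ← zpow_add, add_comm k l]
  · rintro x ⟨e, he, k, rfl⟩
    rw [(hc e he k).mul_pow, hEA.2 e he, hk, one_mul]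
  · intro e he
    exact ⟨e, he, 0, by simp⟩
  · exact ⟨1, E.one_mem, 1, by simp⟩

theorem TRN_le {C : Type} [Group C] (p : ℕ) (E F : Ver p C) (h : E.1 ≤ F.1) :
    (Gr p C).Reachable E F := by
  rcases eq_or_lt_of_le h with h1 | h1
  · have : E = F := Subtype.ext h1
    rw [this]
  · exact SimpleGraph.Adj.reachable (Or.inl h1)

theorem TRN : TRN_stmt := by
  intro C _ _ p hp E F
  have : Fact p.Prime := ⟨hp⟩
  have hpg : ∀ K : Subgroup C, EAb p K → IsPGroup p K := by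
    intro K hK x
    refine ⟨1, ?_⟩
    rw [pow_one]
    exact Subtype.ext (hK.2 x.1 x.2)
  obtain ⟨P, hP⟩ := (hpg E.1 E.2.2).exists_le_sylow
  obtain ⟨Q, hQ⟩ := (hpg F.1 F.2.2).exists_le_sylow
  obtain ⟨g, hg⟩ := MulAction.exists_smul_eq C P Q
  have hFb : ∃ f ∈ F.1, f ≠ 1 := by
    by_contra hcon
    push Not at hcon
    exact F.2.1 ((Subgroup.eq_bot_iff_forall _).2 hcon)
  obtain ⟨f, hf, hf1⟩ := hFb
  have : Nontrivial (Q : Subgroup C) :=
    ⟨⟨⟨f, hQ hf⟩, 1, fun h => hf1 (congrArg Subtype.val h)⟩⟩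
  have hZ : Nontrivial (Subgroup.center (Q : Subgroup C)) := Q.isPGroup'.center_nontrivial
  have hZp : IsPGroup p (Subgroup.center (Q : Subgroup C)) := Q.isPGroup'.to_subgroup _
  obtain ⟨m, hm⟩ := (IsPGroup.iff_card).1 hZp
  have hm0 : m ≠ 0 := by
    rintro rfl
    rw [pow_zero] at hm
    have h1 := (Nat.card_eq_one_iff_unique.1 hm).1
    exact not_nontrivial_iff_subsingleton.2 h1 hZ
  obtain ⟨w, hw⟩ := exists_prime_orderOf_dvd_card' (G := Subgroup.center (Q : Subgroup C)) p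
    (by rw [hm]; exact dvd_pow_self p hm0)
  have hwp : w ^ p = 1 := orderOf_dvd_iff_pow_eq_one.1 (by rw [hw])
  have hw1 : w ≠ 1 := by
    intro h
    rw [h, orderOf_one] at hw
    exact hp.one_lt.ne hw
  have hzp : (w.1.1 : C) ^ p = 1 := by
    have := congrArg (fun t => (t.1.1 : C)) hwp
    simpa using this
  have hz1 : (w.1.1 : C) ≠ 1 := by
    intro h
    exact hw1 (Subtype.ext (Subtype.ext h))
  have hzc : ∀ x ∈ (Q : Subgroup C), x * (w.1.1 : C) = w.1.1 * x := by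
    intro x hx
    have := congrArg Subtype.val (Subgroup.mem_center_iff.1 w.2 ⟨x, hx⟩)
    exact this
  have hE' : EAb p (Cj g E.1) := by
    constructor
    · intro x hx y hy
      rw [mem_Cj] at hx hy
      have h1 := E.2.2.1 _ hx _ hy
      have h2 : g * (g⁻¹ * x * g * (g⁻¹ * y * g)) * g⁻¹ = x * y := by group
      have h3 : g * (g⁻¹ * y * g * (g⁻¹ * x * g)) * g⁻¹ = y * x := by group
      rw [← h2, ← h3, h1]
    · intro x hx
      rw [mem_Cj] at hx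
      have h1 := E.2.2.2 _ hx
      have h2 : (g⁻¹ * x * g) ^ p = g⁻¹ * x ^ p * g := by
        have := conj_pow (i := p) (a := g⁻¹) (b := x)
        rw [inv_inv] at this
        exact this
      rw [h2] at h1
      have h3 : g * (g⁻¹ * x ^ p * g) * g⁻¹ = x ^ p := by group
      rw [← h3, h1]
      group
  have hE'1 : Cj g E.1 ≠ ⊥ := by
    intro h
    refine E.2.1 ((Subgroup.eq_bot_iff_forall _).2 fun x hx => ?_)
    have h1 : g * x * g⁻¹ ∈ Cj g E.1 := by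
      rw [mem_Cj]
      have : g⁻¹ * (g * x * g⁻¹) * g = x := by group
      rw [this]
      exact hx
    rw [h, Subgroup.mem_bot] at h1
    have h2 : x = g⁻¹ * (g * x * g⁻¹) * g := by group
    rw [h2, h1]
    group
  have hE'Q : Cj g E.1 ≤ (Q : Subgroup C) := by
    intro x hx
    rw [mem_Cj] at hx
    have h1 : g⁻¹ * x * g ∈ (P : Subgroup C) := hP hx
    rw [← hg, Sylow.coe_subgroup_smul]
    rw [Subgroup.mem_pointwise_smul_iff_inv_smul_mem]
    have h2 : (MulAut.conj g)⁻¹ • x = g⁻¹ * x * g := by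
      rw [← map_inv, MulAut.smul_def, MulAut.conj_apply, inv_inv]
    rw [h2]
    exact h1
  obtain ⟨V1, hV1, hEV, hz1V⟩ := TRN_V p Q w.1.1 hzc hzp (Cj g E.1) hE'Q hE'
  obtain ⟨V2, hV2, hFV, hz2V⟩ := TRN_V p Q w.1.1 hzc hzp F.1 hQ F.2.2
  obtain ⟨Z, hZA, -, hzZ⟩ := TRN_V p Q w.1.1 hzc hzp ⊥ bot_le ⟨by
    intro x hx y hy
    rw [Subgroup.mem_bot] at hx hy
    rw [hx, hy], by
    intro x hx
    rw [Subgroup.mem_bot] at hx
    rw [hx, one_pow]⟩
  -- the subgroup generated by `z`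
  have hZ0 : EAb p (Subgroup.zpowers (w.1.1 : C)) := by
    have hle : Subgroup.zpowers (w.1.1 : C) ≤ Z := by
      rw [Subgroup.zpowers_le]
      exact hzZ
    exact ⟨fun x hx y hy => hZA.1 x (hle hx) y (hle hy), fun x hx => hZA.2 x (hle hx)⟩
  have hZ1 : Subgroup.zpowers (w.1.1 : C) ≠ ⊥ := by
    rw [Ne, Subgroup.zpowers_eq_bot]
    exact hz1
  have hne : ∀ K L : Subgroup C, K ≠ ⊥ → K ≤ L → L ≠ ⊥ := by
    intro K L hK hKL hL
    rw [hL, le_bot_iff] at hKL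
    exact hK hKL
  refine ⟨g, ⟨Cj g E.1, hE'1, hE'⟩, rfl, ?_⟩
  have r1 := TRN_le p (⟨Cj g E.1, hE'1, hE'⟩ : Ver p C) ⟨V1, hne _ _ hE'1 hEV, hV1⟩ hEV
  have r2 := TRN_le p (⟨Subgroup.zpowers (w.1.1 : C), hZ1, hZ0⟩ : Ver p C)
    ⟨V1, hne _ _ hE'1 hEV, hV1⟩ (by
      show Subgroup.zpowers (w.1.1 : C) ≤ V1
      rw [Subgroup.zpowers_le]
      exact hz1V)
  have r3 := TRN_le p (⟨Subgroup.zpowers (w.1.1 : C), hZ1, hZ0⟩ : Ver p C)
    ⟨V2, hne _ _ F.2.1 hFV, hV2⟩ (by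
      show Subgroup.zpowers (w.1.1 : C) ≤ V2
      rw [Subgroup.zpowers_le]
      exact hz2V)
  have r4 := TRN_le p F (⟨V2, hne _ _ F.2.1 hFV, hV2⟩ : Ver p C) hFV
  exact r1.trans (r2.symm.trans (r3.trans r4.symm))

end RK
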